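import Pool.Agent.helper85.AQ.SpecL

/-! LBC: base change of the exterior algebra. -/

set_option autoImplicit false

namespace Pool.Agent.AQ

open Pool.Agent.GJ
open scoped TensorProduct

noncomputable section

section LBC

variable (k Ω V : Type) [Field k] [Field Ω] [Algebra k Ω] [AddCommGroup V] [Module k V]

/-- the map on generators -/
def LBC_f : V →ₗ[k] ExteriorAlgebra Ω (Ω ⊗[k] V) :=
  ((ExteriorAlgebra.ι Ω (M := Ω ⊗[k] V)).restrictScalars k) ∘ₗ (TensorProduct.mk k Ω V 1)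

theorem LBC_f_apply (v : V) : LBC_f k Ω V v = ExteriorAlgebra.ι Ω ((1 : Ω) ⊗ₜ[k] v) := rfl

/-- the algebra homomorphism -/
def LBC_b : ExteriorAlgebra k V →ₐ[k] ExteriorAlgebra Ω (Ω ⊗[k] V) :=
  ExteriorAlgebra.lift k ⟨LBC_f k Ω V, fun v => by
    rw [LBC_f_apply]
    exact ExteriorAlgebra.ι_sq_zero _⟩

theorem LBC_b_ι (v : V) : LBC_b k Ω V (ExteriorAlgebra.ι k v) =
    ExteriorAlgebra.ι Ω ((1 : Ω) ⊗ₜ[k] v) := by
  unfold LBC_b
  rw [ExteriorAlgebra.lift_ι_apply]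
  rfl

/-- the base change of `ι` -/
def LBC_g : Ω ⊗[k] V →ₗ[Ω] Ω ⊗[k] ExteriorAlgebra k V :=
  LinearMap.baseChange Ω (ExteriorAlgebra.ι k (M := V))

theorem LBC_g_tmul (c : Ω) (v : V) : LBC_g k Ω V (c ⊗ₜ[k] v) = c ⊗ₜ[k] ExteriorAlgebra.ι k v :=
  LinearMap.baseChange_tmul _ _ _

theorem LBC_ι_anti (v w : V) : ExteriorAlgebra.ι k v * ExteriorAlgebra.ι k w +
    ExteriorAlgebra.ι k w * ExteriorAlgebra.ι k v = 0 := by
  have h1 := ExteriorAlgebra.ι_sq_zero (R := k) (v + w)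
  rw [map_add, mul_add, add_mul, add_mul, ExteriorAlgebra.ι_sq_zero,
    ExteriorAlgebra.ι_sq_zero, zero_add, add_zero] at h1
  rw [← h1, add_comm]

theorem LBC_anti (x y : Ω ⊗[k] V) : LBC_g k Ω V x * LBC_g k Ω V y +
    LBC_g k Ω V y * LBC_g k Ω V x = 0 := by
  induction x using TensorProduct.induction_on with
  | zero => simp
  | tmul c v =>
    induction y using TensorProduct.induction_on with
    | zero => simp
    | tmul d w =>
      rw [LBC_g_tmul, LBC_g_tmul, Algebra.TensorProduct.tmul_mul_tmul,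
        Algebra.TensorProduct.tmul_mul_tmul, mul_comm d c, ← TensorProduct.tmul_add, LBC_ι_anti,
        TensorProduct.tmul_zero]
    | add y y' h h' =>
      rw [map_add, mul_add, add_mul]
      calc _ = (LBC_g k Ω V (c ⊗ₜ[k] v) * LBC_g k Ω V y + LBC_g k Ω V y * LBC_g k Ω V (c ⊗ₜ[k] v)) +
          (LBC_g k Ω V (c ⊗ₜ[k] v) * LBC_g k Ω V y' +
            LBC_g k Ω V y' * LBC_g k Ω V (c ⊗ₜ[k] v)) := by abel
        _ = 0 := by rw [h, h', add_zero]
  | add x x' h h' =>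
    rw [map_add, mul_add, add_mul]
    calc _ = (LBC_g k Ω V x * LBC_g k Ω V y + LBC_g k Ω V y * LBC_g k Ω V x) +
        (LBC_g k Ω V x' * LBC_g k Ω V y + LBC_g k Ω V y * LBC_g k Ω V x') := by abel
      _ = 0 := by rw [h, h', add_zero]

theorem LBC_sq (x : Ω ⊗[k] V) : LBC_g k Ω V x * LBC_g k Ω V x = 0 := by
  induction x using TensorProduct.induction_on with
  | zero => simp
  | tmul c v =>
    rw [LBC_g_tmul, Algebra.TensorProduct.tmul_mul_tmul, ExteriorAlgebra.ι_sq_zero,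
      TensorProduct.tmul_zero]
  | add x y h h' =>
    rw [map_add, mul_add, add_mul, add_mul, h, h', zero_add, add_zero, add_comm]
    exact LBC_anti k Ω V x y

/-- the map back -/
def LBC_c : ExteriorAlgebra Ω (Ω ⊗[k] V) →ₐ[Ω] Ω ⊗[k] ExteriorAlgebra k V :=
  ExteriorAlgebra.lift Ω ⟨LBC_g k Ω V, LBC_sq k Ω V⟩

theorem LBC_cb (X : ExteriorAlgebra k V) : LBC_c k Ω V (LBC_b k Ω V X) = (1 : Ω) ⊗ₜ[k] X := by
  have h : ((LBC_c k Ω V).restrictScalars k).comp (LBC_b k Ω V) =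
      (Algebra.TensorProduct.includeRight : ExteriorAlgebra k V →ₐ[k] Ω ⊗[k] ExteriorAlgebra k V) := by
    apply ExteriorAlgebra.hom_ext
    ext v
    change LBC_c k Ω V (LBC_b k Ω V (ExteriorAlgebra.ι k v)) = (1 : Ω) ⊗ₜ[k] ExteriorAlgebra.ι k v
    rw [LBC_b_ι]
    unfold LBC_c
    rw [ExteriorAlgebra.lift_ι_apply]
    exact LBC_g_tmul k Ω V 1 v
  exact congrArg (fun f : ExteriorAlgebra k V →ₐ[k] Ω ⊗[k] ExteriorAlgebra k V => f X) h

theorem LBC_inj : Function.Injective (LBC_b k Ω V) := by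
  intro X Y h
  have h1 := LBC_cb k Ω V X
  rw [h, LBC_cb] at h1
  have h2 : Function.Injective
      (Algebra.TensorProduct.includeRight : ExteriorAlgebra k V →ₐ[k] Ω ⊗[k] ExteriorAlgebra k V) :=
    Algebra.TensorProduct.includeRight_injective (algebraMap k Ω).injective
  exact (h2 h1).symm

theorem LBC_deg (d : ℕ) (X : ExteriorAlgebra k V)
    (hX : X ∈ (⋀[k]^d V : Submodule k (ExteriorAlgebra k V))) :
    LBC_b k Ω V X ∈ (⋀[Ω]^d (Ω ⊗[k] V) : Submodule Ω (ExteriorAlgebra Ω (Ω ⊗[k] V))) := by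
  have hX' : X ∈ (LinearMap.range (ExteriorAlgebra.ι k (M := V))) ^ d := hX
  change LBC_b k Ω V X ∈ (LinearMap.range (ExteriorAlgebra.ι Ω (M := Ω ⊗[k] V))) ^ d
  induction hX' using Submodule.pow_induction_on_left' with
  | algebraMap r =>
    rw [AlgHom.commutes, pow_zero, IsScalarTower.algebraMap_apply k Ω]
    exact Submodule.algebraMap_mem _
  | add x y i hx hy ihx ihy =>
    rw [map_add]
    exact Submodule.add_mem _ (ihx hx) (ihy hy)
  | mem_mul m hm i x hx ih =>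
    rw [map_mul, pow_succ']
    refine Submodule.mul_mem_mul ?_ (ih hx)
    obtain ⟨v, rfl⟩ := hm
    rw [LBC_b_ι]
    exact ⟨_, rfl⟩

theorem LBC_map (A : V →ₗ[k] V) (X : ExteriorAlgebra k V) :
    LBC_b k Ω V (ExteriorAlgebra.map A X) = ExteriorAlgebra.map (A.baseChange Ω) (LBC_b k Ω V X) := by
  have h : (LBC_b k Ω V).comp (ExteriorAlgebra.map A) =
      ((ExteriorAlgebra.map (A.baseChange Ω)).restrictScalars k).comp (LBC_b k Ω V) := by
    apply ExteriorAlgebra.hom_ext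
    ext v
    change LBC_b k Ω V (ExteriorAlgebra.map A (ExteriorAlgebra.ι k v)) =
      ExteriorAlgebra.map (A.baseChange Ω) (LBC_b k Ω V (ExteriorAlgebra.ι k v))
    rw [ExteriorAlgebra.map_apply_ι, LBC_b_ι, LBC_b_ι, ExteriorAlgebra.map_apply_ι,
      LinearMap.baseChange_tmul]
  exact congrArg (fun f : ExteriorAlgebra k V →ₐ[k] ExteriorAlgebra Ω (Ω ⊗[k] V) => f X) h

theorem LBC_dX (A : V →ₗ[k] V) (X : ExteriorAlgebra k V) :
    LBC_b k Ω V (dX A X) = dX (A.baseChange Ω) (LBC_b k Ω V X) := by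
  have h : ((LBC_b k Ω V).mapMatrix (m := Fin 2)).comp (dHom A) =
      ((dHom (A.baseChange Ω)).restrictScalars k).comp (LBC_b k Ω V) := by
    apply ExteriorAlgebra.hom_ext
    apply LinearMap.ext
    intro v
    change ((LBC_b k Ω V).mapMatrix (m := Fin 2)) (dHom A (ExteriorAlgebra.ι k v)) =
      dHom (A.baseChange Ω) (LBC_b k Ω V (ExteriorAlgebra.ι k v))
    rw [LBC_b_ι]
    unfold dHom
    rw [ExteriorAlgebra.lift_ι_apply, ExteriorAlgebra.lift_ι_apply]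
    ext i j
    fin_cases i <;> fin_cases j <;> simp [dMat, LBC_b_ι]
  have h1 := congrArg (fun f : ExteriorAlgebra k V →ₐ[k]
    Matrix (Fin 2) (Fin 2) (ExteriorAlgebra Ω (Ω ⊗[k] V)) => f X 0 1) h
  exact h1

end LBC

theorem LBC : LBC_stmt := by
  intro k Ω V _ _ _ _ _ _
  exact ⟨(LBC_b k Ω V).toLinearMap, LBC_inj k Ω V, map_one (LBC_b k Ω V), LBC_b_ι k Ω V,
    map_mul (LBC_b k Ω V), LBC_deg k Ω V, fun A X => ⟨LBC_map k Ω V A X, LBC_dX k Ω V A X⟩⟩

end

end Pool.Agent.AQ
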