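import Pool.Agent.helper85.AQ.SpecL

/-! LDE: the eigenspaces of `Z`. -/

set_option autoImplicit false

namespace Pool.Agent.AQ

open Pool.Agent.GJ
open scoped TensorProduct

noncomputable section

section LDE

variable {Ω W : Type} [Field Ω] [AddCommGroup W] [Module Ω W]

/-- the projection to the eigenspace -/
def LDE_pr (l : ℕ) (Z : Module.End Ω W) (ζ : Ω) (s : ℕ) : Module.End Ω W :=
  (l : Ω)⁻¹ • ∑ j ∈ Finset.range l, ((ζ ^ s)⁻¹) ^ j • Z ^ j

theorem LDE_mem_eg (Z : W →ₗ[Ω] W) (ζ : Ω) (s : ℕ) (w : W) :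
    w ∈ eg Z ζ s ↔ Z w = ζ ^ s • w := by
  unfold eg
  rw [LinearMap.mem_ker, LinearMap.sub_apply, LinearMap.smul_apply, LinearMap.id_apply, sub_eq_zero]

theorem LDE_pow_mem (Z : Module.End Ω W) (ζ : Ω) (s : ℕ) (w : W) (hw : w ∈ eg Z ζ s) (j : ℕ) :
    (Z ^ j) w = (ζ ^ s) ^ j • w := by
  rw [LDE_mem_eg] at hw
  induction j with
  | zero => simp
  | succ j ih =>
    rw [pow_succ', Module.End.mul_apply, ih, map_smul, hw, smul_smul, pow_succ]

theorem LDE_Zl (l : ℕ) (Z : Module.End Ω W) (hZ : ∑ i ∈ Finset.range l, Z ^ i = 0) : Z ^ l = 1 := by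
  have h := geom_sum_mul Z l
  rw [hZ, zero_mul] at h
  exact (sub_eq_zero.1 h.symm)

theorem LDE_geom (l : ℕ) (x : Ω) (hx : x ^ l = 1) (hx1 : x ≠ 1) :
    ∑ j ∈ Finset.range l, x ^ j = 0 := by
  have h := geom_sum_mul x l
  rw [hx, sub_self] at h
  rcases mul_eq_zero.1 h with h | h
  · exact h
  · exact absurd (sub_eq_zero.1 h) hx1

theorem LDE_pr_mem (l : ℕ) (hl : 0 < l) (Z : Module.End Ω W)
    (hZ : ∑ i ∈ Finset.range l, Z ^ i = 0) (ζ : Ω) (hζ : IsPrimitiveRoot ζ l) (s : ℕ) (w : W) :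
    LDE_pr l Z ζ s w ∈ eg Z ζ s := by
  rw [LDE_mem_eg]
  have hζ0 : ζ ≠ 0 := hζ.ne_zero hl.ne'
  have hζs : ζ ^ s ≠ 0 := pow_ne_zero _ hζ0
  have key : Z * LDE_pr l Z ζ s = ζ ^ s • LDE_pr l Z ζ s := by
    unfold LDE_pr
    rw [mul_smul_comm, smul_comm (ζ ^ s)]
    congr 1
    rw [Finset.mul_sum, Finset.smul_sum]
    have h1 : ∀ j, Z * (((ζ ^ s)⁻¹) ^ j • Z ^ j) = ζ ^ s • (((ζ ^ s)⁻¹) ^ (j + 1) • Z ^ (j + 1)) := by
      intro j
      rw [mul_smul_comm, ← pow_succ', smul_smul]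
      congr 1
      rw [pow_succ]
      field_simp
    rw [Finset.sum_congr rfl fun j _ => h1 j, ← Finset.smul_sum, ← Finset.smul_sum]
    congr 1
    have h2 := Finset.sum_range_succ (fun j => ((ζ ^ s)⁻¹) ^ j • Z ^ j) l
    have h3 := Finset.sum_range_succ' (fun j => ((ζ ^ s)⁻¹) ^ j • Z ^ j) l
    have h4 : ((ζ ^ s)⁻¹) ^ l • Z ^ l = ((ζ ^ s)⁻¹) ^ 0 • Z ^ 0 := by
      rw [LDE_Zl l Z hZ, inv_pow, ← pow_mul, mul_comm, pow_mul, hζ.pow_eq_one, one_pow, inv_one]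
      simp
    rw [h3, h4] at h2
    exact add_right_cancel h2
  have := congrArg (fun f : Module.End Ω W => f w) key
  simpa using this

theorem LDE_pr_sum (l : ℕ) (hl : 0 < l) (hl0 : (l : Ω) ≠ 0) (Z : Module.End Ω W) (ζ : Ω)
    (hζ : IsPrimitiveRoot ζ l) : ∑ s ∈ Finset.range l, LDE_pr l Z ζ s = 1 := by
  unfold LDE_pr
  rw [← Finset.smul_sum, Finset.sum_comm]
  have h1 : ∀ j ∈ Finset.range l, ∑ s ∈ Finset.range l, ((ζ ^ s)⁻¹) ^ j • Z ^ j =
      if j = 0 then (l : Ω) • (1 : Module.End Ω W) else 0 := by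
    intro j hj
    rw [← Finset.sum_smul]
    by_cases h0 : j = 0
    · subst h0
      simp
    · rw [if_neg h0]
      have h2 : ∑ s ∈ Finset.range l, ((ζ ^ s)⁻¹) ^ j = 0 := by
        rw [← LDE_geom l ((ζ ^ j)⁻¹)]
        · refine Finset.sum_congr rfl fun s _ => ?_
          rw [inv_pow, inv_pow, ← pow_mul, ← pow_mul, mul_comm]
        · rw [inv_pow, ← pow_mul, mul_comm, pow_mul, hζ.pow_eq_one, one_pow, inv_one]
        · intro h
          rw [inv_eq_one] at h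
          have := (hζ.pow_eq_one_iff_dvd j).1 h
          have h3 := Nat.le_of_dvd (Nat.pos_of_ne_zero h0) this
          have h4 := Finset.mem_range.1 hj
          omega
      rw [h2, zero_smul]
  rw [Finset.sum_congr rfl h1, Finset.sum_ite_eq' (Finset.range l) 0, if_pos (Finset.mem_range.2 hl),
    smul_smul, inv_mul_cancel₀ hl0, one_smul]

theorem LDE_pr_zero (l : ℕ) (Z : Module.End Ω W) (hZ : ∑ i ∈ Finset.range l, Z ^ i = 0) (ζ : Ω) :
    LDE_pr l Z ζ 0 = 0 := by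
  unfold LDE_pr
  simp [hZ]

theorem LDE_pr_eig (l : ℕ) (hl0 : (l : Ω) ≠ 0) (Z : Module.End Ω W) (ζ : Ω)
    (hζ : IsPrimitiveRoot ζ l) (r s : ℕ) (hr : r < l) (hs : s < l) (w : W) (hw : w ∈ eg Z ζ r) :
    LDE_pr l Z ζ s w = if r = s then w else 0 := by
  have hl : 0 < l := by omega
  have hζ0 : ζ ≠ 0 := hζ.ne_zero hl.ne'
  have h1 : LDE_pr l Z ζ s w = ((l : Ω)⁻¹ * ∑ j ∈ Finset.range l, (ζ ^ r * (ζ ^ s)⁻¹) ^ j) • w := by
    unfold LDE_pr
    rw [LinearMap.smul_apply, LinearMap.sum_apply, mul_smul, Finset.sum_smul]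
    congr 1
    refine Finset.sum_congr rfl fun j _ => ?_
    rw [LinearMap.smul_apply, LDE_pow_mem Z ζ r w hw j, smul_smul, mul_pow, mul_comm]
  rw [h1]
  by_cases h : r = s
  · subst h
    rw [if_pos rfl, mul_inv_cancel₀ (pow_ne_zero _ hζ0)]
    simp [hl0]
  · rw [if_neg h, LDE_geom l, mul_zero, zero_smul]
    · rw [mul_pow, inv_pow, ← pow_mul, ← pow_mul, mul_comm r, mul_comm s, pow_mul, pow_mul,
        hζ.pow_eq_one, one_pow, one_pow, inv_one, one_mul]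
    · intro h2
      rw [mul_inv_eq_one₀ (pow_ne_zero _ hζ0)] at h2
      exact h (hζ.pow_inj hr hs h2)

theorem LDE_decomp (l : ℕ) (hl : 0 < l) (hl0 : (l : Ω) ≠ 0) (Z : Module.End Ω W)
    (hZ : ∑ i ∈ Finset.range l, Z ^ i = 0) (ζ : Ω) (hζ : IsPrimitiveRoot ζ l) (w : W) :
    w = ∑ s : Fin (l - 1), LDE_pr l Z ζ ((s : ℕ) + 1) w := by
  have h1 := congrArg (fun f : Module.End Ω W => f w) (LDE_pr_sum l hl hl0 Z ζ hζ)
  simp only [LinearMap.sum_apply, Module.End.one_apply] at h1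
  obtain ⟨m, rfl⟩ : ∃ m, l = m + 1 := ⟨l - 1, by omega⟩
  rw [Finset.sum_range_succ', LDE_pr_zero _ Z hZ ζ, LinearMap.zero_apply, add_zero] at h1
  have h2 := Fin.sum_univ_eq_sum_range (fun s => LDE_pr (m + 1) Z ζ (s + 1) w) (m + 1 - 1)
  rw [h2, Nat.add_sub_cancel]
  exact h1.symm

theorem LDE_dec (l : ℕ) (hl : 0 < l) (hl0 : (l : Ω) ≠ 0) (Z : Module.End Ω W)
    (hZ : ∑ i ∈ Finset.range l, Z ^ i = 0) (ζ : Ω) (hζ : IsPrimitiveRoot ζ l) : Dec l Z ζ := by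
  intro w
  refine ⟨fun s => LDE_pr l Z ζ ((s : ℕ) + 1) w,
    ⟨fun s => LDE_pr_mem l hl Z hZ ζ hζ _ w, LDE_decomp l hl hl0 Z hZ ζ hζ w⟩, ?_⟩
  rintro u ⟨hu, hw⟩
  funext r
  rw [hw, map_sum]
  have h1 : ∀ s : Fin (l - 1), LDE_pr l Z ζ ((r : ℕ) + 1) (u s) = if s = r then u s else 0 := by
    intro s
    have hs := s.2
    have hr := r.2
    rw [LDE_pr_eig l hl0 Z ζ hζ ((s : ℕ) + 1) ((r : ℕ) + 1) (by omega) (by omega) (u s) (hu s)]
    by_cases h : s = r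
    · subst h
      simp
    · have h' : ¬ ((s : ℕ) + 1 = (r : ℕ) + 1) := fun h2 => h (Fin.ext (by omega))
      rw [if_neg h, if_neg h']
  rw [Finset.sum_congr rfl fun s _ => h1 s]
  simp

/-- the dimensions add up -/
theorem LDE_finrank [FiniteDimensional Ω W] (l : ℕ) (Z : Module.End Ω W) (ζ : Ω)
    (hdec : Dec l Z ζ) :
    Module.finrank Ω W = ∑ s : Fin (l - 1), Module.finrank Ω (eg Z ζ ((s : ℕ) + 1)) := by
  let f : (∀ s : Fin (l - 1), eg Z ζ ((s : ℕ) + 1)) →ₗ[Ω] W :=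
    ∑ s : Fin (l - 1), (eg Z ζ ((s : ℕ) + 1)).subtype ∘ₗ LinearMap.proj s
  have hf : ∀ u, f u = ∑ s, (u s : W) := by
    intro u
    simp [f]
  have hbij : Function.Bijective f := by
    constructor
    · intro u u' h
      rw [hf, hf] at h
      obtain ⟨x, -, hx⟩ := hdec (∑ s, (u s : W))
      have h1 := hx (fun s => (u s : W)) ⟨fun s => (u s).2, rfl⟩
      have h2 := hx (fun s => (u' s : W)) ⟨fun s => (u' s).2, h⟩
      funext s
      apply Subtype.ext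
      have h3 := congrFun (h1.trans h2.symm) s
      exact h3
    · intro w
      obtain ⟨x, ⟨hx1, hx2⟩, -⟩ := hdec w
      exact ⟨fun s => ⟨x s, hx1 s⟩, by rw [hf, hx2]⟩
  rw [← (LinearEquiv.ofBijective f hbij).finrank_eq, Module.finrank_pi_fintype]

end LDE

theorem LDE : LDE_stmt := by
  intro k Ω V _ _ _ _ _ _ l n hl Z v b hb hZ ζ hζ
  have hl0 : (l : Ω) ≠ 0 := Nat.cast_ne_zero.2 hl.ne_zero
  have hlpos : 0 < l := hl.pos
  have hfd : FiniteDimensional k V := Module.Finite.of_basis b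
  set Z' : Module.End Ω (Ω ⊗[k] V) := LinearMap.baseChange Ω Z with hZ'def
  have hpow : ∀ j : ℕ, Z' ^ j = LinearMap.baseChange Ω (Z ^ j) := by
    intro j
    induction j with
    | zero =>
      rw [pow_zero, pow_zero]
      exact (LinearMap.baseChange_id).symm
    | succ j ih =>
      rw [pow_succ, pow_succ, ih]
      exact (LinearMap.baseChange_comp _ _).symm
  have hZ' : ∑ i ∈ Finset.range l, Z' ^ i = 0 := by
    have h1 : ∑ i ∈ Finset.range l, Z' ^ i =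
        LinearMap.baseChange Ω (∑ i ∈ Finset.range l, Z ^ i) := by
      rw [Finset.sum_congr rfl fun i _ => hpow i]
      exact (map_sum (LinearMap.baseChangeHom k Ω V V) _ _).symm
    rw [h1, hZ, LinearMap.baseChange_zero]
  have hdec : Dec l Z' ζ := LDE_dec l hlpos hl0 Z' hZ' ζ hζ
  refine ⟨?_, hdec⟩
  -- upper bound
  have hup : ∀ s : ℕ, 0 < s → s < l → Module.finrank Ω (eg Z' ζ s) ≤ n := by
    intro s hs0 hs
    have hspan : eg Z' ζ s ≤ Submodule.span Ω (Set.range fun i : Fin n =>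
        LDE_pr l Z' ζ s ((1 : Ω) ⊗ₜ[k] v i)) := by
      intro w hw
      have h1 : LDE_pr l Z' ζ s w = w := by
        rw [LDE_pr_eig l hl0 Z' ζ hζ s s hs hs w hw, if_pos rfl]
      rw [← h1]
      have h2 : ∀ x : Ω ⊗[k] V, LDE_pr l Z' ζ s x ∈ Submodule.span Ω (Set.range fun i : Fin n =>
          LDE_pr l Z' ζ s ((1 : Ω) ⊗ₜ[k] v i)) := by
        intro x
        have h3 := (b.baseChange Ω).sum_repr x
        rw [← h3, map_sum]
        refine Submodule.sum_mem _ fun ij _ => ?_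
        rw [map_smul]
        refine Submodule.smul_mem _ _ ?_
        obtain ⟨i, j⟩ := ij
        rw [Module.Basis.baseChange_apply, hb]
        have h4 : ((1 : Ω) ⊗ₜ[k] (Z ^ (j : ℕ)) (v i)) = (Z' ^ (j : ℕ)) ((1 : Ω) ⊗ₜ[k] v i) := by
          rw [hpow, LinearMap.baseChange_tmul]
        have h5 : LDE_pr l Z' ζ s ((Z' ^ (j : ℕ)) ((1 : Ω) ⊗ₜ[k] v i)) =
            (Z' ^ (j : ℕ)) (LDE_pr l Z' ζ s ((1 : Ω) ⊗ₜ[k] v i)) := by
          have h6 : LDE_pr l Z' ζ s * Z' ^ (j : ℕ) = Z' ^ (j : ℕ) * LDE_pr l Z' ζ s := by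
            unfold LDE_pr
            rw [smul_mul_assoc, mul_smul_comm, Finset.sum_mul, Finset.mul_sum]
            congr 1
            refine Finset.sum_congr rfl fun a _ => ?_
            rw [smul_mul_assoc, mul_smul_comm, ← pow_add, ← pow_add, add_comm]
          exact congrArg (fun f : Module.End Ω (Ω ⊗[k] V) => f ((1 : Ω) ⊗ₜ[k] v i)) h6
        rw [h4, h5, LDE_pow_mem Z' ζ s _ (LDE_pr_mem l hlpos Z' hZ' ζ hζ s _)]
        exact Submodule.smul_mem _ _ (Submodule.subset_span ⟨i, rfl⟩)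
      exact h2 w
    calc Module.finrank Ω (eg Z' ζ s) ≤ Module.finrank Ω (Submodule.span Ω (Set.range fun i : Fin n =>
          LDE_pr l Z' ζ s ((1 : Ω) ⊗ₜ[k] v i))) := Submodule.finrank_mono hspan
      _ ≤ Fintype.card (Fin n) := finrank_range_le_card _
      _ = n := Fintype.card_fin n
  have htot := LDE_finrank l Z' ζ hdec
  have hdim : Module.finrank Ω (Ω ⊗[k] V) = n * (l - 1) := by
    rw [Module.finrank_baseChange, Module.finrank_eq_card_basis b]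
    simp
  have hsum : ∑ s : Fin (l - 1), Module.finrank Ω (eg Z' ζ ((s : ℕ) + 1)) = ∑ s : Fin (l - 1), n := by
    rw [← htot, hdim]
    simp [mul_comm]
  have heq := (Finset.sum_eq_sum_iff_of_le (fun (s : Fin (l - 1)) _ => hup ((s : ℕ) + 1) (by omega)
    (by have := s.2; omega))).1 hsum
  intro s hs0 hs
  have h7 := heq ⟨s - 1, by omega⟩ (Finset.mem_univ _)
  simp only at h7
  rwa [Nat.sub_add_cancel hs0] at h7

end

end Pool.Agent.AQ
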