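import Pool.Agent.helper85.AQ.SpecL
import Pool.Agent.helper27.AQ.LDE

/-! LIB: the local structure. -/

set_option autoImplicit false

namespace Pool.Agent.AQ

open Pool.Agent.GJ
open scoped TensorProduct

noncomputable section

section LIB

variable {Ω V : Type} [Field Ω] [AddCommGroup V] [Module Ω V]

/-- `ω ^ a` only depends on `a` modulo `m` -/
theorem LIB_pow {m : ℕ} (ω : Ω) (hω : ω ^ m = 1) (a b : ℕ) (h : (a : ZMod m) = (b : ZMod m)) :
    ω ^ a = ω ^ b := by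
  have h1 : a ≡ b [MOD m] := (ZMod.natCast_eq_natCast_iff a b m).1 h
  have h2 : ∀ c, ω ^ c = ω ^ (c % m) := by
    intro c
    conv_lhs => rw [← Nat.div_add_mod c m]
    rw [pow_add, pow_mul, hω, one_pow, one_mul]
  rw [h2 a, h2 b]
  have h3 : a % m = b % m := h1
  rw [h3]

theorem LIB_eg_pow {m : ℕ} (Z : V →ₗ[Ω] V) (ω : Ω) (hω : ω ^ m = 1) (a b : ℕ)
    (h : (a : ZMod m) = (b : ZMod m)) : eg Z ω a = eg Z ω b := by
  unfold eg
  rw [LIB_pow ω hω a b h]

theorem LIB_Tpow (T : V ≃ₗ[Ω] V) (j : ℕ) (w : V) :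
    (T ^ j) w = (((T : V →ₗ[Ω] V) : Module.End Ω V) ^ j) w := by
  induction j generalizing w with
  | zero => rfl
  | succ j ih =>
    rw [pow_succ, pow_succ, LinearEquiv.mul_apply, Module.End.mul_apply, ih]
    rfl

/-- `p` is prime to `m` -/
theorem LIB_coprime [CharZero Ω] (m p : ℕ) (hm : m.Prime) (hV : ∃ w : V, w ≠ 0) (T Φ : V ≃ₗ[Ω] V)
    (hT : (∑ i ∈ Finset.range m, ((T : V →ₗ[Ω] V) : Module.End Ω V) ^ i) = 0)
    (hΦ : ∀ v, Φ (T v) = (T ^ p) (Φ v)) : Nat.Coprime p m := by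
  rw [Nat.coprime_comm, Nat.Prime.coprime_iff_not_dvd hm]
  rintro ⟨c, hc⟩
  have hTm := LDE_Zl m _ hT
  have h1 : ∀ w, T w = w := by
    intro w
    apply Φ.injective
    rw [hΦ, hc, LIB_Tpow, pow_mul, hTm, one_pow, Module.End.one_apply]
  have h2 : ((T : V →ₗ[Ω] V) : Module.End Ω V) = 1 := by
    ext w
    exact h1 w
  rw [h2] at hT
  simp only [one_pow, Finset.sum_const, Finset.card_range] at hT
  obtain ⟨w, hw⟩ := hV
  have h3 := congrArg (fun f : Module.End Ω V => f w) hT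
  have h4 : (m : Ω) • w = 0 := by
    have : (m • (1 : Module.End Ω V)) w = (m : Ω) • w := by
      rw [← Nat.cast_smul_eq_nsmul Ω, LinearMap.smul_apply, Module.End.one_apply]
    rw [← this]
    exact h3
  rcases smul_eq_zero.1 h4 with h5 | h5
  · exact hm.ne_zero (Nat.cast_eq_zero.1 h5)
  · exact hw h5

/-- `Φ` maps eigenspaces to eigenspaces -/
theorem LIB_move (m p : ℕ) (hpm : Nat.Coprime p m) (T Φ : V ≃ₗ[Ω] V)
    (hT : (∑ i ∈ Finset.range m, ((T : V →ₗ[Ω] V) : Module.End Ω V) ^ i) = 0)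
    (hΦ : ∀ v, Φ (T v) = (T ^ p) (Φ v)) (ω : Ω) (hω : ω ^ m = 1) (a b : ℕ)
    (hab : ((b * p : ℕ) : ZMod m) = (a : ZMod m)) (w : V) (hw : w ∈ eg (T : V →ₗ[Ω] V) ω a) :
    Φ w ∈ eg (T : V →ₗ[Ω] V) ω b := by
  have hTm := LDE_Zl m _ hT
  rw [LDE_mem_eg] at hw ⊢
  have hw' : T w = ω ^ a • w := hw
  -- the inverse of `p`
  obtain ⟨p', hp'⟩ : ∃ p' : ℕ, ((p * p' : ℕ) : ZMod m) = 1 := by
    have h1 := ZMod.coe_mul_inv_eq_one p hpm
    rcases Nat.eq_zero_or_pos m with rfl | hm0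
    · exact ⟨1, by
        have : p = 1 := by simpa using hpm
        rw [this]
        simp⟩
    · have : NeZero m := ⟨hm0.ne'⟩
      refine ⟨((p : ZMod m)⁻¹).val, ?_⟩
      rw [Nat.cast_mul, ZMod.natCast_zmod_val]
      exact h1
  have h2 : (T ^ p) (Φ w) = ω ^ a • Φ w := by
    rw [← hΦ, hw', map_smul]
  have h3 : ∀ j : ℕ, ((T ^ p) ^ j) (Φ w) = (ω ^ a) ^ j • Φ w := by
    intro j
    induction j with
    | zero => simp
    | succ j ih =>
      rw [pow_succ', LinearEquiv.mul_apply, ih, map_smul, h2, smul_smul, pow_succ]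
  have h4 : ((T : V →ₗ[Ω] V) : Module.End Ω V) ^ (p * p') = ((T : V →ₗ[Ω] V) : Module.End Ω V) := by
    have h5 : p * p' ≡ 1 [MOD m] := (ZMod.natCast_eq_natCast_iff _ _ m).1 (by
      rw [hp']
      simp)
    have h6 : ∀ c : ℕ, ((T : V →ₗ[Ω] V) : Module.End Ω V) ^ c =
        ((T : V →ₗ[Ω] V) : Module.End Ω V) ^ (c % m) := by
      intro c
      conv_lhs => rw [← Nat.div_add_mod c m]
      rw [pow_add, pow_mul, hTm, one_pow, one_mul]
    have h7 : (p * p') % m = 1 % m := h5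
    rw [h6, h7, ← h6, pow_one]
  have h8 : T (Φ w) = (ω ^ a) ^ p' • Φ w := by
    rw [← h3, ← pow_mul, LIB_Tpow, h4]
    rfl
  change T (Φ w) = ω ^ b • Φ w
  rw [h8, ← pow_mul]
  congr 1
  apply LIB_pow ω hω
  rw [Nat.cast_mul, ← hab, Nat.cast_mul, mul_assoc, ← Nat.cast_mul, hp', mul_one]

end LIB

theorem LIB : LIB_stmt := by
  intro Ω V _ _ _ _ _ _ m p hm hdim hp T Φ hT hΦ
  have : Fact m.Prime := ⟨hm⟩
  have hm0 : (m : Ω) ≠ 0 := Nat.cast_ne_zero.2 hm.ne_zero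
  have : NeZero (m : Ω) := ⟨hm0⟩
  have hV : ∃ w : V, w ≠ 0 := by
    have h1 : 0 < Module.finrank Ω V := by
      rw [hdim]
      have := hm.two_le
      omega
    have : Nontrivial V := Module.nontrivial_of_finrank_pos h1
    exact exists_ne 0
  have hpm : Nat.Coprime p m := LIB_coprime m p hm hV T Φ hT hΦ
  obtain ⟨ω, hω⟩ := HasEnoughRootsOfUnity.exists_primitiveRoot Ω m
  have hωm := hω.pow_eq_one
  have hdec := LDE_dec m hm.pos hm0 ((T : V →ₗ[Ω] V) : Module.End Ω V) hT ω hω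
  have hmove := fun a b hab w hw => LIB_move m p hpm T Φ hT hΦ ω hωm a b hab w hw
  -- dimensions
  let f : ZMod m → ℕ := fun x => Module.finrank Ω (eg (T : V →ₗ[Ω] V) ω x.val)
  have hf1 : ∀ x : ZMod m, f ((p : ZMod m) * x) ≤ f x := by
    intro x
    have h1 : ∀ w ∈ eg (T : V →ₗ[Ω] V) ω ((p : ZMod m) * x).val,
        (Φ : V →ₗ[Ω] V) w ∈ eg (T : V →ₗ[Ω] V) ω x.val := by
      intro w hw
      refine hmove _ _ ?_ w hw
      rw [Nat.cast_mul, ZMod.natCast_zmod_val, ZMod.natCast_zmod_val, mul_comm]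
    exact LinearMap.finrank_le_finrank_of_injective (f := (Φ : V →ₗ[Ω] V).restrict h1) (by
      intro a b hab
      apply Subtype.ext
      apply Φ.injective
      exact congrArg Subtype.val hab)
  have hfk : ∀ (k : ℕ) (x : ZMod m), f ((p : ZMod m) ^ k * x) ≤ f x := by
    intro k
    induction k with
    | zero => intro x; simp
    | succ k ih =>
      intro x
      rw [pow_succ', mul_assoc]
      exact (hf1 _).trans (ih x)
  have hfall : ∀ i j : ZMod m, i ≠ 0 → j ≠ 0 → f j ≤ f i := by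
    intro i j hi hj
    obtain ⟨k, rfl⟩ := hp i j hi hj
    exact hfk k i
  have hval : ∀ s : Fin (m - 1), (((s : ℕ) + 1 : ℕ) : ZMod m) ≠ 0 := by
    intro s h
    rw [ZMod.natCast_eq_zero_iff] at h
    have h1 := Nat.le_of_dvd (by omega) h
    have := s.2
    omega
  have hfs : ∀ s : Fin (m - 1), Module.finrank Ω (eg (T : V →ₗ[Ω] V) ω ((s : ℕ) + 1)) = f 1 := by
    intro s
    have h1 : f (((s : ℕ) + 1 : ℕ) : ZMod m) = f 1 :=
      le_antisymm (hfall _ _ one_ne_zero (hval s)) (hfall _ _ (hval s) one_ne_zero)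
    rw [← h1]
    have h2 : (((s : ℕ) + 1 : ℕ) : ZMod m).val = (s : ℕ) + 1 :=
      ZMod.val_cast_of_lt (by have := s.2; omega)
    change _ = Module.finrank Ω (eg (T : V →ₗ[Ω] V) ω (((s : ℕ) + 1 : ℕ) : ZMod m).val)
    rw [h2]
  have htot := LDE_finrank m ((T : V →ₗ[Ω] V) : Module.End Ω V) ω hdec
  rw [hdim, Finset.sum_congr rfl fun s _ => hfs s, Finset.sum_const, Finset.card_univ,
    Fintype.card_fin, smul_eq_mul] at htot
  have hf1' : f 1 = 1 := by
    have h1 := hm.two_le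
    have h2 : 0 < m - 1 := by omega
    have h3 : (m - 1) * f 1 = (m - 1) * 1 := by rw [mul_one]; exact htot.symm
    exact Nat.eq_of_mul_eq_mul_left h2 h3
  have hone : ∀ s : Fin (m - 1), Module.finrank Ω (eg (T : V →ₗ[Ω] V) ω ((s : ℕ) + 1)) = 1 :=
    fun s => (hfs s).trans hf1'
  -- the basis
  have hchoose : ∀ s : Fin (m - 1), ∃ x : V, x ∈ eg (T : V →ₗ[Ω] V) ω ((s : ℕ) + 1) ∧ x ≠ 0 ∧
      ∀ y ∈ eg (T : V →ₗ[Ω] V) ω ((s : ℕ) + 1), ∃ c : Ω, y = c • x := by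
    intro s
    obtain ⟨x, hx0, hx⟩ := finrank_eq_one_iff'.1 (hone s)
    refine ⟨x, x.2, fun h => hx0 (Subtype.ext h), ?_⟩
    intro y hy
    obtain ⟨c, hc⟩ := hx ⟨y, hy⟩
    exact ⟨c, (congrArg Subtype.val hc).symm⟩
  choose x hx1 hx2 hx3 using hchoose
  have hli : LinearIndependent Ω x := by
    apply Module.End.eigenvectors_linearIndependent' ((T : V →ₗ[Ω] V) : Module.End Ω V)
      (fun s : Fin (m - 1) => ω ^ ((s : ℕ) + 1))
    · intro a b hab
      have ha := a.2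
      have hb := b.2
      have := hω.pow_inj (by omega) (by omega) hab
      exact Fin.ext (by omega)
    · intro s
      rw [Module.End.hasEigenvector_iff, Module.End.mem_eigenspace_iff]
      exact ⟨(LDE_mem_eg _ _ _ _).1 (hx1 s), hx2 s⟩
  have hne : Nonempty (Fin (m - 1)) := ⟨⟨0, by have := hm.two_le; omega⟩⟩
  let B : Module.Basis (Fin (m - 1)) Ω V := basisOfLinearIndependentOfCardEqFinrank hli (by
    rw [Fintype.card_fin, hdim])
  have hB : ∀ s, B s = x s := fun s => by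
    change (basisOfLinearIndependentOfCardEqFinrank hli _) s = x s
    rw [coe_basisOfLinearIndependentOfCardEqFinrank]
  refine ⟨ω, B, hω, ?_, ?_⟩
  · intro j
    rw [hB]
    exact (LDE_mem_eg _ _ _ _).1 (hx1 j)
  · intro j j' hjj
    rw [hB, hB]
    have h1 := hmove ((j : ℕ) + 1) ((j' : ℕ) + 1) hjj (x j) (hx1 j)
    obtain ⟨d, hd⟩ := hx3 j' _ h1
    refine ⟨d, ?_, hd⟩
    rintro rfl
    rw [zero_smul] at hd
    exact hx2 j (Φ.map_eq_zero_iff.1 hd)

end

end Pool.Agent.AQ
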