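import Pool.Agent.helper85.AQ.SpecL
import Pool.Agent.helper27.AQ.LDE

/-! LIR: the local irreducibility. -/

set_option autoImplicit false

namespace Pool.Agent.AQ

open Pool.Agent.GJ
open scoped TensorProduct

noncomputable section

theorem LIR_pr {Ω V : Type} [Field Ω] [AddCommGroup V] [Module Ω V] (l : ℕ) (Z : Module.End Ω V)
    (ζ : Ω) (s : ℕ) (W : Submodule Ω V) (hW : ∀ w ∈ W, Z w ∈ W) (w : V) (hw : w ∈ W) :
    LDE_pr l Z ζ s w ∈ W := by
  have h1 : ∀ j : ℕ, (Z ^ j) w ∈ W := by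
    intro j
    induction j with
    | zero => simpa using hw
    | succ j ih =>
      rw [pow_succ', Module.End.mul_apply]
      exact hW _ ih
  unfold LDE_pr
  rw [LinearMap.smul_apply, LinearMap.sum_apply]
  refine Submodule.smul_mem _ _ (Submodule.sum_mem _ fun j _ => ?_)
  rw [LinearMap.smul_apply]
  exact Submodule.smul_mem _ _ (h1 j)

theorem LIR (hLIB : LIB_stmt) : LIR_stmt := by
  intro Ω V _ _ _ _ _ _ m p hm hdim hp T Φ hT hΦ W hWT hWΦ
  have : Fact m.Prime := ⟨hm⟩
  have hm0 : (m : Ω) ≠ 0 := Nat.cast_ne_zero.2 hm.ne_zero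
  obtain ⟨ω, v, hω, hv, hΦv⟩ := hLIB Ω V m p hm hdim hp T Φ hT hΦ
  by_cases hbot : W = ⊥
  · exact Or.inl hbot
  right
  obtain ⟨w, hw, hw0⟩ := (Submodule.ne_bot_iff W).1 hbot
  -- a basis vector in `W`
  have hs : ∃ s, v.repr w s ≠ 0 := by
    by_contra h
    push Not at h
    exact hw0 (v.repr.map_eq_zero_iff.1 (Finsupp.ext h))
  obtain ⟨s, hs⟩ := hs
  have hvs : v s ∈ W := by
    have h1 := LIR_pr m ((T : V →ₗ[Ω] V) : Module.End Ω V) ω ((s : ℕ) + 1) W hWT w hw
    have h2 : LDE_pr m ((T : V →ₗ[Ω] V) : Module.End Ω V) ω ((s : ℕ) + 1) w =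
        v.repr w s • v s := by
      conv_lhs => rw [← v.sum_repr w, map_sum]
      rw [Finset.sum_eq_single s]
      · rw [map_smul, LDE_pr_eig m hm0 _ ω hω ((s : ℕ) + 1) ((s : ℕ) + 1)
          (by have := s.2; omega) (by have := s.2; omega) (v s)
          ((LDE_mem_eg _ _ _ _).2 (hv s)), if_pos rfl]
      · intro r _ hrs
        rw [map_smul, LDE_pr_eig m hm0 _ ω hω ((r : ℕ) + 1) ((s : ℕ) + 1)
          (by have := r.2; omega) (by have := s.2; omega) (v r)
          ((LDE_mem_eg _ _ _ _).2 (hv r)), if_neg (fun h => hrs (Fin.ext (by omega))), smul_zero]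
      · intro h
        exact absurd (Finset.mem_univ s) h
    rw [h2] at h1
    exact (Submodule.smul_mem_iff _ hs).1 h1
  have hval : ∀ s : Fin (m - 1), (((s : ℕ) + 1 : ℕ) : ZMod m) ≠ 0 := by
    intro s h
    rw [ZMod.natCast_eq_zero_iff] at h
    have h1 := Nat.le_of_dvd (by omega) h
    have := s.2
    omega
  -- spreading
  have hspread : ∀ (k : ℕ) (i : Fin (m - 1)),
      (((s : ℕ) + 1 : ℕ) : ZMod m) = (p : ZMod m) ^ k * (((i : ℕ) + 1 : ℕ) : ZMod m) →
      v i ∈ W := by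
    intro k
    induction k with
    | zero =>
      intro i hi
      rw [pow_zero, one_mul] at hi
      have h1 : (s : ℕ) + 1 ≡ (i : ℕ) + 1 [MOD m] := (ZMod.natCast_eq_natCast_iff _ _ m).1 hi
      have h2 : (s : ℕ) + 1 = (i : ℕ) + 1 :=
        Nat.ModEq.eq_of_lt_of_lt h1 (by have := s.2; omega) (by have := i.2; omega)
      have h3 : s = i := Fin.ext (by omega)
      rw [← h3]
      exact hvs
    | succ k ih =>
      intro i hi
      rw [pow_succ, mul_assoc] at hi
      have hne : (p : ZMod m) * (((i : ℕ) + 1 : ℕ) : ZMod m) ≠ 0 := by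
        intro h
        rw [h, mul_zero] at hi
        exact hval s hi
      set y : ZMod m := (p : ZMod m) * (((i : ℕ) + 1 : ℕ) : ZMod m) with hy
      have hy0 : 0 < y.val := Nat.pos_of_ne_zero (fun h => hne ((ZMod.val_eq_zero y).1 h))
      have hylt : y.val < m := ZMod.val_lt y
      let j : Fin (m - 1) := ⟨y.val - 1, by omega⟩
      have hj : (((j : ℕ) + 1 : ℕ) : ZMod m) = y := by
        have : (j : ℕ) + 1 = y.val := by
          change y.val - 1 + 1 = y.val
          omega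
        rw [this, ZMod.natCast_zmod_val]
      have hjW := ih j (by rw [hj]; exact hi)
      obtain ⟨d, hd0, hd⟩ := hΦv j i (by rw [hj, hy, Nat.cast_mul, mul_comm])
      have h1 := hWΦ _ hjW
      rw [hd] at h1
      exact (Submodule.smul_mem_iff _ hd0).1 h1
  rw [eq_top_iff, ← v.span_eq, Submodule.span_le]
  rintro _ ⟨i, rfl⟩
  obtain ⟨k, hk⟩ := hp _ _ (hval i) (hval s)
  exact hspread k i hk

end

end Pool.Agent.AQ
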