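import Pool.Agent.helper85.AQ.SpecL
import Pool.Agent.helper39.GJ.SpecL

/-! LSC: the operators with `Sc`. -/

set_option autoImplicit false

namespace Pool.Agent.AQ

open Pool.Agent.GJ
open scoped TensorProduct

noncomputable section

section LSC

variable {Ω : Type} [Field Ω] {k : ℕ} {V : Fin k → Type} [∀ i, AddCommGroup (V i)]
  [∀ i, Module Ω (V i)] (e : Fin k → ℕ)

theorem LSC_add (A B : ∀ i, V i →ₗ[Ω] V i) :
    dia e (fun i => A i + B i) = dia e A + dia e B := by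
  apply LinearMap.ext
  intro x
  rfl

theorem LSC_smul (c : Ω) (A : ∀ i, V i →ₗ[Ω] V i) :
    dia e (fun i => c • A i) = c • dia e A := by
  apply LinearMap.ext
  intro x
  rfl

theorem LSC_comp (A B : ∀ i, V i →ₗ[Ω] V i) :
    dia e (fun i => A i ∘ₗ B i) = dia e A ∘ₗ dia e B := by
  apply LinearMap.ext
  intro x
  rfl

theorem LSC_sub (A B : ∀ i, V i →ₗ[Ω] V i) :
    dia e (fun i => A i ∘ₗ B i - B i ∘ₗ A i) = dia e A ∘ₗ dia e B - dia e B ∘ₗ dia e A := by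
  apply LinearMap.ext
  intro x
  rfl

theorem LSC_id : dia e (fun i => (LinearMap.id : V i →ₗ[Ω] V i)) = LinearMap.id := by
  apply LinearMap.ext
  intro x
  rfl

/-- the exterior powers are stable under `map` -/
theorem LSC_map_mem {W W' : Type} [AddCommGroup W] [Module Ω W] [AddCommGroup W'] [Module Ω W']
    (f : W →ₗ[Ω] W') (d : ℕ) (X : ExteriorAlgebra Ω W)
    (hX : X ∈ (⋀[Ω]^d W : Submodule Ω (ExteriorAlgebra Ω W))) :
    ExteriorAlgebra.map f X ∈ (⋀[Ω]^d W' : Submodule Ω (ExteriorAlgebra Ω W')) := by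
  have hX' : X ∈ (LinearMap.range (ExteriorAlgebra.ι Ω (M := W))) ^ d := hX
  change ExteriorAlgebra.map f X ∈ (LinearMap.range (ExteriorAlgebra.ι Ω (M := W'))) ^ d
  induction hX' using Submodule.pow_induction_on_left' with
  | algebraMap r =>
    rw [AlgHom.commutes, pow_zero]
    exact Submodule.algebraMap_mem _
  | add x y i hx hy ihx ihy =>
    rw [map_add]
    exact Submodule.add_mem _ (ihx hx) (ihy hy)
  | mem_mul m hm i x hx ih =>
    rw [map_mul, pow_succ']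
    refine Submodule.mul_mem_mul ?_ (ih hx)
    obtain ⟨v, rfl⟩ := hm
    rw [ExteriorAlgebra.map_apply_ι]
    exact ⟨_, rfl⟩

theorem LSC_map_comp {W W' W'' : Type} [AddCommGroup W] [Module Ω W] [AddCommGroup W']
    [Module Ω W'] [AddCommGroup W''] [Module Ω W''] (f : W →ₗ[Ω] W') (g : W' →ₗ[Ω] W'')
    (X : ExteriorAlgebra Ω W) :
    ExteriorAlgebra.map g (ExteriorAlgebra.map f X) = ExteriorAlgebra.map (g ∘ₗ f) X := by
  rw [← ExteriorAlgebra.map_comp_map]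
  rfl

end LSC

theorem LSC (hL10 : GJ.L10_stmt) : LSC_stmt := by
  intro Ω H _ k V _ _ _ e d0 ρ
  obtain ⟨l1, l2, l3, l4, l5, l6, l7⟩ := hL10 Ω (∀ i, Fin (e i) → V i)
  refine ⟨?_, ?_⟩
  · intro A B c hA hB
    have hbr : ∀ d ≤ d0, ∀ κ : H → Ω, ∀ Y ∈ (⋀[Ω]^d (∀ i, Fin (e i) → V i) :
        Submodule Ω (ExteriorAlgebra Ω (∀ i, Fin (e i) → V i))),
        (∀ h, ExteriorAlgebra.map (dia e (ρ h)) Y = κ h • Y) →
        dX (dia e fun i => A i ∘ₗ B i - B i ∘ₗ A i) Y = 0 := by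
      intro d hd κ Y hY hh
      obtain ⟨a, ha⟩ := hA d hd κ
      obtain ⟨b, hb⟩ := hB d hd κ
      rw [LSC_sub, l6, hb Y hY hh, map_smul, ha Y hY hh, map_smul, hb Y hY hh, smul_smul,
        smul_smul, mul_comm, sub_self]
    refine ⟨?_, ?_, ?_, hbr⟩
    · intro d hd κ
      obtain ⟨a, ha⟩ := hA d hd κ
      obtain ⟨b, hb⟩ := hB d hd κ
      refine ⟨a + b, fun Y hY hh => ?_⟩
      rw [LSC_add, l4, ha Y hY hh, hb Y hY hh, add_smul]
    · intro d hd κ
      obtain ⟨a, ha⟩ := hA d hd κ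
      refine ⟨c * a, fun Y hY hh => ?_⟩
      rw [LSC_smul, l5, ha Y hY hh, smul_smul]
    · intro d hd κ
      exact ⟨0, fun Y hY hh => by rw [hbr d hd κ Y hY hh, zero_smul]⟩
  · intro g π hg A hA d hd κ
    obtain ⟨a, ha⟩ := hA d hd (fun h => κ (π.symm h))
    refine ⟨a, fun Y hY hh => ?_⟩
    set G := dia e (fun i => (g i : V i →ₗ[Ω] V i)) with hG
    set G' := dia e (fun i => ((g i).symm : V i →ₗ[Ω] V i)) with hG'
    have hGG' : G ∘ₗ G' = LinearMap.id := by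
      rw [hG, hG', ← LSC_comp, ← LSC_id]
      congr 1
      funext i
      ext x
      simp
    have hG'G : G' ∘ₗ G = LinearMap.id := by
      rw [hG, hG', ← LSC_comp, ← LSC_id]
      congr 1
      funext i
      ext x
      simp
    have hcj : dia e (fun i => cj (g i) (A i)) = G ∘ₗ dia e A ∘ₗ G' := by
      rw [hG, hG']
      apply LinearMap.ext
      intro x
      rfl
    have hρ : ∀ h, dia e (ρ h) ∘ₗ G' = G' ∘ₗ dia e (ρ (π.symm h)) := by
      intro h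
      have h1 : dia e (ρ (π.symm h)) ∘ₗ G = G ∘ₗ dia e (ρ h) := by
        rw [hG, ← LSC_comp, ← LSC_comp]
        congr 1
        funext i
        rw [hg, Equiv.apply_symm_apply]
      calc dia e (ρ h) ∘ₗ G' = (G' ∘ₗ G) ∘ₗ dia e (ρ h) ∘ₗ G' := by
            rw [hG'G, LinearMap.id_comp]
        _ = G' ∘ₗ (G ∘ₗ dia e (ρ h)) ∘ₗ G' := rfl
        _ = G' ∘ₗ (dia e (ρ (π.symm h)) ∘ₗ G) ∘ₗ G' := by rw [h1]
        _ = G' ∘ₗ dia e (ρ (π.symm h)) ∘ₗ (G ∘ₗ G') := rfl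
        _ = G' ∘ₗ dia e (ρ (π.symm h)) := by rw [hGG', LinearMap.comp_id]
    -- the vector `g⁻¹ Y`
    set Y' := ExteriorAlgebra.map G' Y with hY'
    have hY'mem := LSC_map_mem G' d Y hY
    have hY'eig : ∀ h, ExteriorAlgebra.map (dia e (ρ h)) Y' = κ (π.symm h) • Y' := by
      intro h
      rw [hY', LSC_map_comp, hρ, ← LSC_map_comp, hh, map_smul]
    have h2 := ha Y' hY'mem hY'eig
    have h3 : G ∘ₗ dia e A = (G ∘ₗ dia e A ∘ₗ G') ∘ₗ G := by
      calc G ∘ₗ dia e A = G ∘ₗ dia e A ∘ₗ (G' ∘ₗ G) := by rw [hG'G, LinearMap.comp_id]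
        _ = (G ∘ₗ dia e A ∘ₗ G') ∘ₗ G := rfl
    have h4 := l7 (∀ i, Fin (e i) → V i) G (dia e A) (G ∘ₗ dia e A ∘ₗ G') h3 Y'
    have h5 : ExteriorAlgebra.map G Y' = Y := by
      rw [hY', LSC_map_comp, hGG', ExteriorAlgebra.map_id]
      rfl
    rw [h5, h2, map_smul, h5] at h4
    rw [hcj, ← h4]

end

end Pool.Agent.AQ
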